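import Pool.Agent.H.MP_4d0e60_an.D

namespace Pool.Agent.Results.MP_4d0e60_an.Linear

/-- `E_n Z_p`, the join of `n + 1` copies of `Z_p`, in barycentric coordinates -/
def Join (n p : ℕ) [NeZero p] : Set (Fin (n + 1) × ZMod p → ℝ) :=
  {x | (∀ z, 0 ≤ x z) ∧ ∑ z, x z = 1 ∧ ∀ i c c', c ≠ c' → x (i, c) * x (i, c') = 0}

/-- the action of the generator `1` of `Z_p` on the join -/
def shift {n p : ℕ} (x : Fin (n + 1) × ZMod p → ℝ) : Fin (n + 1) × ZMod p → ℝ :=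
  fun z => x (z.1, z.2 - 1)

/-- the set `P_p(X)` -/
def Per {X : Type} [TopologicalSpace X] (T : X ≃ₜ X) (p : ℕ) : Set X := {x | T^[p] x = x}

/-- there is a continuous equivariant map `P_p(X) → E_n Z_p` -/
def MapTo {X : Type} [TopologicalSpace X] (T : X ≃ₜ X) (p : ℕ) [NeZero p] (n : ℕ) : Prop :=
  ∃ f : C(Per T p, Join n p), ∀ a b : Per T p, b.1 = T a.1 → (f b).1 = shift (f a).1

/-- there is a continuous equivariant map `E_n Z_p → P_p(X)` -/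
def MapFrom {X : Type} [TopologicalSpace X] (T : X ≃ₜ X) (p : ℕ) [NeZero p] (n : ℕ) : Prop :=
  ∃ g : C(Join n p, Per T p), ∀ x y : Join n p, y.1 = shift x.1 → (g y).1 = T (g x).1

open Pool.Agent.Lib.helper28.Zp Pool.Agent.H.MP_4d0e60_an

theorem join_iff {n p : ℕ} [NeZero p] {x : E n p} : x ∈ Join n p ↔ x ∈ S n p n :=
  ⟨fun h => ⟨h.1, h.2.1, h.2.2, fun j _ hj => absurd j.2 (by omega)⟩,
    fun h => ⟨h.1, h.2.1, h.2.2.1⟩⟩

theorem result : ∃ (X : Type) (_ : TopologicalSpace X) (_ : CompactSpace X)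
    (_ : TopologicalSpace.MetrizableSpace X) (T : X ≃ₜ X), (∀ x, T x ≠ x) ∧
    ∃ C : ℝ, 0 < C ∧ ∃ p₀ : ℕ, ∀ (p : ℕ) [NeZero p], p.Prime → p₀ ≤ p →
      (Per T p).Nonempty ∧
      (∃ n : ℕ, IsLeast {k | MapTo T p k} n ∧ C * p ≤ n) ∧
      (∃ n : ℕ, IsGreatest {k | MapFrom T p k} n ∧ C * p ≤ n) ∧
      ∃ n : ℕ, C * p ≤ n ∧ ∀ i ≤ n, ∀ a : Per T p, Subsingleton (HomotopyGroup.Pi i (Per T p) a) := by
  refine ⟨XX, inferInstance, isCompact_iff_compactSpace.1 XX_compact, inferInstance, TT, free,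
    1 / 500, by norm_num, 2000, fun p _ hp h => ?_⟩
  have : Fact (1 < p) := ⟨hp.one_lt⟩
  obtain ⟨κ, κS, Φ, hκ, hΦ, e, eκ, eΦ⟩ := model hp (by omega)
  have h1 : p ≤ 500 * (nn p - 1) := by unfold nn; omega
  have h2 : 1 / 500 * (p : ℝ) ≤ (nn p - 1 : ℕ) := by
    have : (p : ℝ) ≤ 500 * (nn p - 1 : ℕ) := by exact_mod_cast h1
    linarith
  have h3 : 1 / 500 * (p : ℝ) ≤ nn p := h2.trans (by exact_mod_cast Nat.sub_le _ _)
  refine ⟨⟨_, (Φ ⟨_, S_mono (S_single 0)⟩).2⟩, ⟨nn p, ⟨⟨⟨fun a => ⟨κ a, join_iff.2 (κS a)⟩,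
    hκ.subtype_mk _⟩, eκ⟩, ?_⟩, h3⟩, ⟨nn p, ⟨⟨⟨fun x => Φ ⟨x.1, join_iff.1 x.2⟩,
      hΦ.comp (continuous_subtype_val.subtype_mk _)⟩, fun x y hy => eΦ _ _ hy⟩, ?_⟩, h3⟩,
    nn p - 1, h2, fun i hi a => conn (by omega) κ hκ κS Φ hΦ e a⟩
  · rintro k ⟨f, hf⟩
    exact dold hp.one_lt (fun x => (f (Φ x)).1)
      (continuous_subtype_val.comp (f.continuous.comp hΦ)) (fun x => join_iff.1 (f (Φ x)).2)
      fun x y hy => hf _ _ (eΦ x y hy)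
  · rintro k ⟨g, hg⟩
    exact dold hp.one_lt (fun x => κ (g ⟨x.1, join_iff.2 x.2⟩))
      (hκ.comp (g.continuous.comp (continuous_subtype_val.subtype_mk _))) (fun x => κS _)
      fun x y hy => eκ _ _ (hg _ _ hy)

end Pool.Agent.Results.MP_4d0e60_an.Linear
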